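import Pool.Agent.TH752.AR.Ari
import Pool.Agent.Helper227.EN.Lang

/-!
Models of PA, in the language of arithmetic: ordered semirings with induction, coding.
-/

set_option autoImplicit false

open FirstOrder FirstOrder.Language
open Pool.Agent.Helper227.EN

universe u w

namespace Pool.Agent.TH752.AR

section realiz
variable {M : Type u} [LA.Structure M]

theorem pa_t0 {α : Type} (v : α → M) :
    (t0 : LA.Term α).realize v = Structure.funMap (L := LA) AF.zero ![] := by
  have h : (default : Fin 0 → M) = ![] := Subsingleton.elim _ _
  rw [← h]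
  exact Term.realize_constants (L := LA) (c := AF.zero)

theorem pa_t1 {α : Type} (v : α → M) :
    (t1 : LA.Term α).realize v = Structure.funMap (L := LA) AF.one ![] := by
  have h : (default : Fin 0 → M) = ![] := Subsingleton.elim _ _
  rw [← h]
  exact Term.realize_constants (L := LA) (c := AF.one)

theorem pa_tadd {α : Type} (v : α → M) (s t : LA.Term α) :
    (tadd s t).realize v = Structure.funMap (L := LA) AF.add ![s.realize v, t.realize v] :=
  Term.realize_functions_apply₂ (L := LA) (f := AF.add)

theorem pa_tmul {α : Type} (v : α → M) (s t : LA.Term α) :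
    (tmul s t).realize v = Structure.funMap (L := LA) AF.mul ![s.realize v, t.realize v] :=
  Term.realize_functions_apply₂ (L := LA) (f := AF.mul)

theorem pa_flt {α : Type} {n : ℕ} (v : α → M) (xs : Fin n → M) (s t : LA.Term (α ⊕ Fin n)) :
    (flt s t).Realize v xs ↔ Structure.RelMap (L := LA) AR.lt
      ![s.realize (Sum.elim v xs), t.realize (Sum.elim v xs)] :=
  BoundedFormula.realize_rel₂ (L := LA) (R := AR.lt)

end realiz

/-- the axioms, as statements about a structure -/
structure PaAx (M : Type u) (z o : M) (ad mu : M → M → M) (lt : M → M → Prop) : Prop where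
  aa : ∀ x y w, ad (ad x y) w = ad x (ad y w)
  ac : ∀ x y, ad x y = ad y x
  ma : ∀ x y w, mu (mu x y) w = mu x (mu y w)
  mc : ∀ x y, mu x y = mu y x
  di : ∀ x y w, mu x (ad y w) = ad (mu x y) (mu x w)
  az : ∀ x, ad x z = x
  mz : ∀ x, mu x z = z
  mo : ∀ x, mu x o = x
  tr : ∀ x y w, lt x y → lt y w → lt x w
  ir : ∀ x, ¬ lt x x
  tot : ∀ x y, lt x y ∨ x = y ∨ lt y x
  la : ∀ x y w, lt x y → lt (ad x w) (ad y w)
  lm : ∀ x y w, lt z w → lt x y → lt (mu x w) (mu y w)
  df : ∀ x y, lt x y → ∃ w, ad x w = y
  zo : lt z o
  ds : ∀ x, lt z x → lt o x ∨ o = x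
  nn : ∀ x, lt z x ∨ z = x

theorem pa_ax (M : Type u) [LA.Structure M] (h : M ⊨ PAminus) :
    PaAx M (Structure.funMap (L := LA) AF.zero ![]) (Structure.funMap (L := LA) AF.one ![])
      (fun x y => Structure.funMap (L := LA) AF.add ![x, y])
      (fun x y => Structure.funMap (L := LA) AF.mul ![x, y])
      (fun x y => Structure.RelMap (L := LA) AR.lt ![x, y]) := by
  simp only [PAminus, axAddAssoc, axAddComm, axMulAssoc, axMulComm, axDistrib, axAddZero, axMulZero, axMulOne, axLtTrans, axLtIrrefl, axLtTotal, axAddLt, axMulLt, axDiff, axZeroLtOne, axDiscrete, axNonneg, Theory.model_iff, Set.mem_insert_iff, Set.mem_singleton_iff,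
    forall_eq_or_imp, forall_eq, Sentence.Realize, Formula.Realize, BoundedFormula.realize_all,
    BoundedFormula.realize_bdEqual, BoundedFormula.realize_imp, BoundedFormula.realize_not,
    BoundedFormula.realize_sup, BoundedFormula.realize_ex, pa_t0, pa_t1, pa_tadd, pa_tmul, pa_flt,
    Term.realize_var, Sum.elim_inr] at h
  obtain ⟨h1, h2, h3, h4, h5, h6, h7, h8, h9, h10, h11, h12, h13, h14, h15, h16, h17⟩ := h
  exact ⟨h1, h2, h3, h4, h5, h6, h7, h8, h9, h10, h11, h12, h13, h14, h15, h16, h17⟩

/-- the meaning of the induction axiom -/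
theorem pa_ind {M : Type u} [LA.Structure M] {n : ℕ}
    (φ : LA.BoundedFormula (Empty ⊕ Fin n) 1) :
    M ⊨ indAx φ ↔ ∀ y : Fin n → M,
      φ.Realize (Sum.elim default y) (fun _ => Structure.funMap (L := LA) AF.zero ![]) →
      (∀ x : M, φ.Realize (Sum.elim default y) (fun _ => x) →
        φ.Realize (Sum.elim default y) (fun _ => Structure.funMap (L := LA) AF.add
          ![x, Structure.funMap (L := LA) AF.one ![] ])) →
      ∀ x : M, φ.Realize (Sum.elim default y) (fun _ => x) := by
  have h1 : ∀ x : M, (Fin.snoc (default : Fin 0 → M) x : Fin 1 → M) = fun _ => x := by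
    intro x; funext i; fin_cases i; rfl
  unfold indAx
  rw [Sentence.Realize, Formula.realize_iAlls]
  refine forall_congr' fun y => ?_
  simp only [Formula.Realize, BoundedFormula.realize_imp, BoundedFormula.realize_inf,
    BoundedFormula.realize_all, BoundedFormula.realize_bdEqual, Term.realize_var, Sum.elim_inr,
    and_imp]
  refine imp_congr ?_ (imp_congr ?_ ?_)
  · constructor
    · intro h
      have := h (Structure.funMap (L := LA) AF.zero ![])
      rw [h1] at this
      exact this (pa_t0 _).symm
    · intro h x hx
      rw [h1]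
      rw [pa_t0] at hx
      have : x = Structure.funMap (L := LA) AF.zero ![] := hx
      rw [this]
      exact h
  · refine forall_congr' fun x => ?_
    refine imp_congr (by rw [h1]) ?_
    have hl : ∀ w : M, (φ.liftAt 1 0).Realize (fun a => (Sum.elim default y : Empty ⊕ Fin n → M) a)
        (Fin.snoc (Fin.snoc (default : Fin 0 → M) x) w : Fin 2 → M) ↔
        φ.Realize (Sum.elim default y) (fun _ => w) := by
      intro w
      rw [BoundedFormula.realize_liftAt (by norm_num)]
      refine iff_of_eq (congrArg _ ?_)
      funext i
      fin_cases i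
      rfl
    constructor
    · intro h
      exact (hl _).1 (h _ (by
        simp only [pa_tadd, Term.realize_var, Sum.elim_inr, pa_t1]; rfl))
    · intro h w hw
      refine (hl w).2 ?_
      simp only [pa_tadd, Term.realize_var, Sum.elim_inr, pa_t1] at hw
      have : w = Structure.funMap (L := LA) AF.add ![x, Structure.funMap (L := LA) AF.one ![] ] := hw
      rw [this]
      exact h
  · refine forall_congr' fun x => ?_
    rw [h1]

/-- induction for definable sets -/
theorem pa_ind_dfn {M : Type u} [LA.Structure M] (h : M ⊨ PA) {S : M → Prop}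
    (hS : Dfn LA (Set.univ : Set M) fun v => S (v 0))
    (h0 : S (Structure.funMap (L := LA) AF.zero ![]))
    (hs : ∀ x, S x → S (Structure.funMap (L := LA) AF.add
      ![x, Structure.funMap (L := LA) AF.one ![] ])) : ∀ x, S x := by
  classical
  obtain ⟨A0, -, hA0⟩ := hS.finite
  obtain ⟨φ, hφ⟩ := dfn_iff.1 hA0
  let e := A0.equivFin
  let g : ↥(A0 : Set M) ⊕ ℕ → (Empty ⊕ Fin A0.card) ⊕ Fin 1 :=
    Sum.map (fun a => Sum.inr (e a)) fun _ => 0
  let ψ : LA.BoundedFormula (Empty ⊕ Fin A0.card) 1 := BoundedFormula.relabel g φ
  have hψ : ∀ x : M, ψ.Realize (Sum.elim default fun i => (e.symm i : M)) (fun _ => x) ↔ S x := by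
    intro x
    rw [← hφ fun _ => x]
    have h1 := BoundedFormula.realize_relabel (m := 1) (n := 0) (φ := φ) (g := g)
      (v := Sum.elim default fun i => (e.symm i : M)) (xs := fun _ => x)
    refine h1.trans ?_
    have h2 : (Sum.elim (Sum.elim (default : Empty → M) fun i => (e.symm i : M))
        ((fun _ : Fin (1 + 0) => x) ∘ Fin.castAdd 0)) ∘ g =
        Sum.elim Subtype.val fun _ => x := by
      funext z
      rcases z with z | z
      · show ((e.symm (e z) : ↥A0) : M) = z
        rw [Equiv.symm_apply_apply]
      · rfl
    rw [h2]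
    exact iff_of_eq (congrArg _ (Subsingleton.elim _ _))
  have h1 : M ⊨ indAx ψ := Theory.realize_sentence_of_mem PA (Or.inr ⟨_, ψ, rfl⟩)
  rw [pa_ind] at h1
  have h2 := h1 fun i => (e.symm i : M)
  simp only [hψ] at h2
  exact h2 h0 hs

/-- a model of PA is an ordered semiring with induction, and so it has coding -/
theorem pa_cod {M : Type u} [LA.Structure M] (h : M ⊨ PA) :
    ∃ c : Cod LA M, ∀ x y, c.lt x y ↔ Structure.RelMap (L := LA) AR.lt ![x, y] := by
  classical
  have hm : M ⊨ PAminus := h.mono Set.subset_union_left
  have H := pa_ax M hm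
  let z : M := Structure.funMap (L := LA) AF.zero ![]
  let o : M := Structure.funMap (L := LA) AF.one ![]
  let ad : M → M → M := fun x y => Structure.funMap (L := LA) AF.add ![x, y]
  let mu : M → M → M := fun x y => Structure.funMap (L := LA) AF.mul ![x, y]
  let lt : M → M → Prop := fun x y => Structure.RelMap (L := LA) AR.lt ![x, y]
  have H' : PaAx M z o ad mu lt := H
  let iS : CommSemiring M :=
    { add := ad
      mul := mu
      zero := z
      one := o
      nsmul := fun n x => Nat.rec z (fun _ y => ad y x) n
      nsmul_zero := fun x => rfl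
      nsmul_succ := fun n x => rfl
      npow := fun n x => Nat.rec o (fun _ y => mu y x) n
      npow_zero := fun x => rfl
      npow_succ := fun n x => rfl
      natCast := fun n => Nat.rec z (fun _ y => ad y o) n
      natCast_zero := rfl
      natCast_succ := fun n => rfl
      add_assoc := H'.aa
      zero_add := fun x => (H'.ac z x).trans (H'.az x)
      add_zero := H'.az
      add_comm := H'.ac
      mul_assoc := H'.ma
      one_mul := fun x => (H'.mc o x).trans (H'.mo x)
      mul_one := H'.mo
      mul_comm := H'.mc
      zero_mul := fun x => (H'.mc z x).trans (H'.mz x)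
      mul_zero := H'.mz
      left_distrib := H'.di
      right_distrib := fun x y w => by
        change mu (ad x y) w = ad (mu x w) (mu y w)
        rw [H'.mc, H'.di, H'.mc w x, H'.mc w y] }
  let iL : LinearOrder M :=
    { le := fun x y => lt x y ∨ x = y
      lt := lt
      le_refl := fun x => Or.inr rfl
      le_trans := by
        rintro x y w (h1 | h1) (h2 | h2)
        · exact Or.inl (H'.tr x y w h1 h2)
        · exact Or.inl (h2 ▸ h1)
        · exact Or.inl (h1 ▸ h2)
        · exact Or.inr (h1.trans h2)
      lt_iff_le_not_ge := by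
        intro x y
        constructor
        · intro h1
          refine ⟨Or.inl h1, ?_⟩
          rintro (h2 | h2)
          · exact H'.ir x (H'.tr x y x h1 h2)
          · exact H'.ir x (by rw [h2] at h1; rw [h2] at *; exact h1)
        · rintro ⟨h1 | h1, h2⟩
          · exact h1
          · exact absurd (Or.inr h1.symm) h2
      le_antisymm := by
        rintro x y (h1 | h1) (h2 | h2)
        · exact absurd (H'.tr x y x h1 h2) (H'.ir x)
        · exact h2.symm
        · exact h1
        · exact h1
      le_total := by
        intro x y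
        rcases H'.tot x y with h1 | h1 | h1
        · exact Or.inl (Or.inl h1)
        · exact Or.inl (Or.inr h1)
        · exact Or.inr (Or.inl h1)
      toDecidableLE := Classical.decRel _ }
  have hlt : ∀ x y : M, x < y ↔ lt x y := fun x y => Iff.rfl
  have hle : ∀ x y : M, x ≤ y ↔ lt x y ∨ x = y := fun x y => Iff.rfl
  have h0 : ∀ x : M, 0 ≤ x := by
    intro x
    exact H'.nn x
  have hzo : (0 : M) < 1 := H'.zo
  have haddr : ∀ x y w : M, x < y → x + w < y + w := fun x y w h => H'.la x y w h
  have haddr' : ∀ x y : M, x ≤ y → ∀ w, x + w ≤ y + w := by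
    intro x y hxy w
    rcases hxy with h | h
    · exact (haddr x y w h).le
    · rw [h]
  have hmulr : ∀ x y w : M, 0 < w → x < y → x * w < y * w := fun x y w hw h => H'.lm x y w hw h
  have iO : IsStrictOrderedRing M := by
    exact
      { add_le_add_left := haddr'
        le_of_add_le_add_left := by
          intro x y w hxy
          rcases H'.tot y w with h1 | h1 | h1
          · exact Or.inl h1
          · exact Or.inr h1
          · exfalso
            have h2 := haddr w y x h1
            rw [add_comm w x, add_comm y x] at h2
            exact absurd h2 (not_lt.mpr hxy)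
        zero_le_one := hzo.le
        exists_pair_ne := ⟨0, 1, hzo.ne⟩
        mul_lt_mul_of_pos_left := by
          intro w hw x y hxy
          show w * x < w * y
          rw [mul_comm w x, mul_comm w y]
          exact hmulr x y w hw hxy
        mul_lt_mul_of_pos_right := by
          intro w hw x y hxy
          exact hmulr x y w hw hxy }
  have iC : CanonicallyOrderedAdd M :=
    { exists_add_of_le := by
        intro x y hxy
        rcases hxy with h | h
        · obtain ⟨w, hw⟩ := H'.df x y h
          exact ⟨w, hw.symm⟩
        · exact ⟨0, by rw [h, add_zero]⟩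
      le_self_add := by
        intro x y
        have h2 := haddr' 0 y (h0 y) x
        rw [zero_add, add_comm y x] at h2
        exact h2
      le_add_self := by
        intro x y
        have h2 := haddr' 0 y (h0 y) x
        rw [zero_add] at h2
        exact h2 }
  have hA : Ari LA M :=
    { dadd := by
        refine (Dfn.fm (L := LA) (Term.equal (Term.var 0)
          (tadd (Term.var 1) (Term.var 2)))).congr fun v => ?_
        rw [Formula.realize_equal, pa_tadd]
        rfl
      dmul := by
        refine (Dfn.fm (L := LA) (Term.equal (Term.var 0)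
          (tmul (Term.var 1) (Term.var 2)))).congr fun v => ?_
        rw [Formula.realize_equal, pa_tmul]
        rfl
      disc := by
        intro x hx
        rcases (h0 x) with h | h
        · rcases H'.ds x h with h2 | h2
          · exact absurd (H'.tr _ _ _ h2 hx) (H'.ir _)
          · rw [← h2] at hx
            exact absurd hx (H'.ir _)
        · exact h.symm
      ind := fun S hS h0 hs => pa_ind_dfn h hS h0 hs }
  exact ⟨hA.cod, fun x y => Iff.rfl⟩

end Pool.Agent.TH752.AR
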