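import Pool.Agent.TH752.AR.Cod

/-!
Ordered semirings with definable operations and induction for definable sets: division, Euclid's
lemma, collection, coding of bounded definable sets.
-/

set_option autoImplicit false

open FirstOrder FirstOrder.Language

universe u w

namespace Pool.Agent.TH752.AR

section df
variable {L : FirstOrder.Language.{0, 0}} {N : Type u} [L.Structure N]

/-- `t` is a definable function -/
def DF (L : FirstOrder.Language.{0, 0}) [L.Structure N] (A : Set N) (t : (ℕ → N) → N) : Prop :=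
  Dfn L A fun v => v 0 = t (fun n => v (n + 1))

theorem DF.var {A : Set N} (i : ℕ) : DF L A fun v => v i := Dfn.eq 0 (i + 1)

theorem DF.con {A : Set N} {x : N} (h : Dc L A x) : DF L A fun _ => x := h

theorem DF.par (x : N) : DF L (Set.univ : Set N) fun _ => x := dc_of_mem (Set.mem_univ x)

theorem Dfn.eqT {A : Set N} {s t : (ℕ → N) → N} (hs : DF L A s) (ht : DF L A t) :
    Dfn L A fun v => s v = t v := by
  have h1 : Dfn L A fun w => w 0 = s (fun n => w (n + 1)) ∧ w 0 = t (fun n => w (n + 1)) :=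
    Dfn.and hs ht
  refine h1.ex.congr fun v => ?_
  constructor
  · rintro ⟨y, h2, h3⟩
    have e2 : y = s v := h2
    have e3 : y = t v := h3
    exact e2.symm.trans e3
  · intro h
    exact ⟨s v, rfl, h⟩

theorem DF.op {A : Set N} {f : N → N → N} (hf : Dfn L A fun v => v 0 = f (v 1) (v 2))
    {s t : (ℕ → N) → N} (hs : DF L A s) (ht : DF L A t) : DF L A fun v => f (s v) (t v) := by
  have h1 : Dfn L A fun w => w 1 = s (fun n => w (n + 3)) :=
    Dfn.ren hs (fun n => match n with | 0 => 1 | n + 1 => n + 3)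
  have h2 : Dfn L A fun w => w 0 = t (fun n => w (n + 3)) :=
    Dfn.ren ht (fun n => match n with | 0 => 0 | n + 1 => n + 3)
  have h3 : Dfn L A fun w => w 2 = f (w 1) (w 0) := Dfn.ren3 (R := fun x y z => x = f y z) hf 2 1 0
  refine (h1.and (h2.and h3)).ex.ex.congr fun v => ?_
  constructor
  · rintro ⟨y, z, e1, e2, e3⟩
    have e1' : y = s (fun n => v (n + 1)) := e1
    have e2' : z = t (fun n => v (n + 1)) := e2
    have e3' : v 0 = f y z := e3
    rw [e3', e1', e2']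
  · intro h
    exact ⟨_, _, rfl, rfl, h⟩

theorem Dfn.rel1 {A : Set N} {R : N → Prop} (hR : Dfn L A fun v => R (v 0))
    {t : (ℕ → N) → N} (ht : DF L A t) : Dfn L A fun v => R (t v) := by
  have h1 : Dfn L A fun w => w 0 = t (fun n => w (n + 1)) ∧ R (w 0) := Dfn.and ht hR
  refine h1.ex.congr fun v => ?_
  constructor
  · rintro ⟨y, h2, h3⟩
    have e2 : y = t v := h2
    have e3 : R y := h3
    rwa [e2] at e3
  · intro h
    exact ⟨t v, rfl, h⟩

theorem Dfn.rel2 {A : Set N} {R : N → N → Prop} (hR : Dfn L A fun v => R (v 0) (v 1))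
    {s t : (ℕ → N) → N} (hs : DF L A s) (ht : DF L A t) : Dfn L A fun v => R (s v) (t v) := by
  have h1 : Dfn L A fun w => w 1 = s (fun n => w (n + 2)) :=
    Dfn.ren hs (fun n => match n with | 0 => 1 | n + 1 => n + 2)
  have h2 : Dfn L A fun w => w 0 = t (fun n => w (n + 2)) :=
    Dfn.ren ht (fun n => match n with | 0 => 0 | n + 1 => n + 2)
  refine (h1.and (h2.and (hR.ren2 1 0))).ex.ex.congr fun v => ?_
  constructor
  · rintro ⟨y, z, e1, e2, e3⟩
    have e1' : y = s v := e1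
    have e2' : z = t v := e2
    have e3' : R y z := e3
    rwa [e1', e2'] at e3'
  · intro h
    exact ⟨_, _, rfl, rfl, h⟩

end df

section
variable {N : Type u} [CommSemiring N] [LinearOrder N] [IsStrictOrderedRing N]
  [CanonicallyOrderedAdd N]

/-- an ordered semiring with definable operations and induction for definable sets -/
structure Ari (L : FirstOrder.Language.{0, 0}) (N : Type u) [L.Structure N] [CommSemiring N]
    [LinearOrder N] [IsStrictOrderedRing N] [CanonicallyOrderedAdd N] : Prop where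
  dadd : Dfn L (∅ : Set N) fun v => v 0 = v 1 + v 2
  dmul : Dfn L (∅ : Set N) fun v => v 0 = v 1 * v 2
  disc : ∀ x : N, x < 1 → x = 0
  ind : ∀ S : N → Prop, Dfn L (Set.univ : Set N) (fun v => S (v 0)) → S 0 →
    (∀ x, S x → S (x + 1)) → ∀ x, S x

theorem lt_iff_ex {x y : N} : x < y ↔ ∃ z, z ≠ 0 ∧ y = x + z := by
  constructor
  · intro h
    obtain ⟨z, hz⟩ := exists_add_of_le h.le
    refine ⟨z, ?_, hz⟩
    rintro rfl
    rw [add_zero] at hz
    exact h.ne' hz
  · rintro ⟨z, hz, rfl⟩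
    have : 0 < z := pos_iff_ne_zero.2 hz
    exact lt_add_of_pos_right x this

/-- the pairing function `(x + y)² + x` -/
def prN (x y : N) : N := (x + y) * (x + y) + x

namespace Ari
variable {L : FirstOrder.Language.{0, 0}} [L.Structure N] (h : Ari L N)
include h

theorem add {A : Set N} {s t : (ℕ → N) → N} (hs : DF L A s) (ht : DF L A t) :
    DF L A fun v => s v + t v := DF.op (f := fun x y => x + y) h.dadd.mono0 hs ht

theorem mul {A : Set N} {s t : (ℕ → N) → N} (hs : DF L A s) (ht : DF L A t) :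
    DF L A fun v => s v * t v := DF.op (f := fun x y => x * y) h.dmul.mono0 hs ht

theorem one {A : Set N} : DF L A fun _ => (1 : N) := by
  have h1 : Dfn L A fun v => v 0 = v 0 * v 0 ∧ ¬ v 0 = v 0 + v 0 :=
    (Dfn.eqT (DF.var 0) (h.mul (DF.var 0) (DF.var 0))).and
      (Dfn.eqT (DF.var 0) (h.add (DF.var 0) (DF.var 0))).not
  refine h1.congr fun v => ?_
  constructor
  · rintro ⟨h2, h3⟩
    have h4 : v 0 ≠ 0 := by
      intro h4
      rw [h4, add_zero] at h3
      exact h3 rfl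
    have h5 : (0 : N) < v 0 := pos_iff_ne_zero.2 h4
    have h6 : v 0 * 1 = v 0 * v 0 := by rw [mul_one]; exact h2
    exact (mul_left_cancel₀ h4 h6).symm
  · intro h2
    rw [h2]
    refine ⟨(mul_one _).symm, fun h3 => ?_⟩
    have h4 : (1 : N) < 1 + 1 := lt_add_of_pos_right 1 zero_lt_one
    exact h4.ne h3

theorem zero {A : Set N} : DF L A fun _ => (0 : N) := by
  have h1 : Dfn L A fun v => v 0 = v 0 + v 0 :=
    Dfn.eqT (DF.var 0) (h.add (DF.var 0) (DF.var 0))
  refine h1.congr fun v => ?_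
  constructor
  · intro h2
    by_contra h3
    have h4 : v 0 < v 0 + v 0 := lt_add_of_pos_right _ (pos_iff_ne_zero.2 h3)
    exact h4.ne h2
  · intro h2
    rw [h2, add_zero]

theorem le {A : Set N} {s t : (ℕ → N) → N} (hs : DF L A s) (ht : DF L A t) :
    Dfn L A fun v => s v ≤ t v := by
  refine Dfn.rel2 (R := fun x y => x ≤ y) ?_ hs ht
  have h1 : Dfn L A fun w => w 2 = w 1 + w 0 :=
    Dfn.eqT (DF.var 2) (h.add (DF.var 1) (DF.var 0))
  refine h1.ex.congr fun v => ?_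
  constructor
  · rintro ⟨z, hz⟩
    have e : v 1 = v 0 + z := hz
    rw [e]
    exact le_self_add
  · intro h2
    obtain ⟨z, hz⟩ := exists_add_of_le h2
    exact ⟨z, hz⟩

theorem lt {A : Set N} {s t : (ℕ → N) → N} (hs : DF L A s) (ht : DF L A t) :
    Dfn L A fun v => s v < t v :=
  (h.le ht hs).not.congr fun _ => not_le

theorem dvd {A : Set N} {s t : (ℕ → N) → N} (hs : DF L A s) (ht : DF L A t) :
    Dfn L A fun v => s v ∣ t v := by
  refine Dfn.rel2 (R := fun x y => x ∣ y) ?_ hs ht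
  have h1 : Dfn L A fun w => w 2 = w 1 * w 0 :=
    Dfn.eqT (DF.var 2) (h.mul (DF.var 1) (DF.var 0))
  exact h1.ex

theorem lt_succ {x y : N} : x < y + 1 ↔ x ≤ y := by
  constructor
  · intro h1
    by_contra h2
    obtain ⟨z, hz, rfl⟩ := lt_iff_ex.1 (not_le.1 h2)
    have h3 : z < 1 := lt_of_add_lt_add_left h1
    exact hz (h.disc z h3)
  · intro h1
    exact lt_of_le_of_lt h1 (lt_add_of_pos_right y zero_lt_one)

theorem lnp {S : N → Prop} (hS : Dfn L (Set.univ : Set N) fun v => S (v 0)) (hx : ∃ x, S x) :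
    ∃ x, S x ∧ ∀ y, y < x → ¬ S y := by
  by_contra hcon
  push Not at hcon
  have hT : Dfn L (Set.univ : Set N) fun v => ∀ y, y < v 0 → ¬ S y := by
    have h1 : Dfn L (Set.univ : Set N) fun w => w 0 < w 1 → ¬ S (w 0) :=
      (h.lt (DF.var 0) (DF.var 1)).imp hS.not
    exact h1.all
  have h2 := h.ind (fun x => ∀ y, y < x → ¬ S y) hT (fun y hy => absurd hy not_lt_zero)
    (fun x hx y hy hSy => by
      rcases (h.lt_succ.1 hy).lt_or_eq with h3 | rfl
      · exact hx y h3 hSy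
      · obtain ⟨z, hz, hz'⟩ := hcon y hSy
        exact hx z hz hz')
  obtain ⟨x, hx⟩ := hx
  exact h2 (x + 1) x (h.lt_succ.2 le_rfl) hx

theorem div (a : N) {b : N} (hb : 0 < b) : ∃ q r, r < b ∧ a = b * q + r := by
  have hd : Dfn L (Set.univ : Set N) fun v => ∃ q r, r < b ∧ v 0 = b * q + r := by
    have h1 : Dfn L (Set.univ : Set N) fun w => w 0 < b ∧ w 2 = b * w 1 + w 0 :=
      (h.lt (DF.var 0) (DF.par b)).and
        (Dfn.eqT (DF.var 2) (h.add (h.mul (DF.par b) (DF.var 1)) (DF.var 0)))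
    exact h1.ex.ex
  refine h.ind (fun a => ∃ q r, r < b ∧ a = b * q + r) hd ⟨0, 0, hb, by simp⟩ ?_ a
  rintro x ⟨q, r, hr, hx⟩
  rcases (le_of_not_gt fun h1 => not_lt.2 (h.lt_succ.1 h1) hr : r + 1 ≤ b).lt_or_eq with h1 | h1
  · exact ⟨q, r + 1, h1, by rw [hx, add_assoc]⟩
  · exact ⟨q + 1, 0, hb, by rw [hx, mul_add, mul_one, add_zero, add_assoc, h1]⟩

omit h [L.Structure N] in
theorem dvd_of_add {x a b : N} (h1 : x ∣ a + b) (h2 : x ∣ a) : x ∣ b := by
  obtain ⟨c, hc⟩ := h1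
  obtain ⟨d, rfl⟩ := h2
  rcases eq_or_ne x 0 with rfl | hx
  · rw [zero_mul, zero_mul, zero_add] at hc
    rw [hc]
  · have h3 : d ≤ c := by
      by_contra h4
      have h5 : x * c < x * d := mul_lt_mul_of_pos_left (not_le.1 h4) (pos_iff_ne_zero.2 hx)
      have h6 : x * d ≤ x * c := by rw [← hc]; exact le_self_add
      exact absurd h5 (not_lt.2 h6)
    obtain ⟨e, rfl⟩ := exists_add_of_le h3
    rw [mul_add] at hc
    exact ⟨e, add_left_cancel hc⟩

theorem dvd_one {x : N} (h1 : x ∣ 1) : x = 1 := by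
  obtain ⟨y, hy⟩ := h1
  have hx : x ≠ 0 := by
    rintro rfl
    rw [zero_mul] at hy
    exact one_ne_zero hy
  have hy' : y ≠ 0 := by
    rintro rfl
    rw [mul_zero] at hy
    exact one_ne_zero hy
  by_contra h2
  have h3 : 1 < x := by
    rcases lt_trichotomy x 1 with h4 | h4 | h4
    · exact absurd (h.disc x h4) hx
    · exact absurd h4 h2
    · exact h4
  have h4 : 1 ≤ y := by
    by_contra h5
    exact hy' (h.disc y (not_le.1 h5))
  have h5 : (1 : N) < x * y := lt_of_lt_of_le h3 (le_mul_of_one_le_right zero_le h4)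
  exact h5.ne hy

/-- Euclid's lemma -/
theorem euclid {x y z : N} (hc : ∀ d, d ∣ x → d ∣ y → d = 1) (hxy : x ∣ y * z) : x ∣ z := by
  rcases eq_or_ne y 0 with rfl | hy
  · have : x = 1 := hc x dvd_rfl (dvd_zero x)
    rw [this]
    exact one_dvd z
  rcases eq_or_ne x 0 with rfl | hx
  · have : y = 1 := hc y (dvd_zero y) dvd_rfl
    rw [this, one_mul] at hxy
    exact hxy
  have hd : Dfn L (Set.univ : Set N) fun v => 0 < v 0 ∧ x ∣ v 0 * z :=
    (h.lt h.zero (DF.var 0)).and (h.dvd (DF.par x) (h.mul (DF.var 0) (DF.par z)))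
  obtain ⟨n, ⟨hn0, hn⟩, hmin⟩ := h.lnp (S := fun n => 0 < n ∧ x ∣ n * z) hd
    ⟨x, pos_iff_ne_zero.2 hx, dvd_mul_right x z⟩
  have key : ∀ y', x ∣ y' * z → n ∣ y' := by
    intro y' hy'
    obtain ⟨q, r, hr, hy''⟩ := h.div y' hn0
    have h1 : x ∣ r * z := by
      refine dvd_of_add (a := n * q * z) ?_ ?_
      · rw [← add_mul, ← hy'']
        exact hy'
      · have : n * q * z = n * z * q := by ring
        rw [this]
        exact Dvd.dvd.mul_right hn q
    have h2 : r = 0 := by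
      by_contra h3
      exact hmin r hr ⟨pos_iff_ne_zero.2 h3, h1⟩
    rw [h2, add_zero] at hy''
    exact ⟨q, hy''⟩
  have h1 : n = 1 := hc n (key x (dvd_mul_right x z)) (key y hxy)
  rw [h1, one_mul] at hn
  exact hn

/-- common multiples -/
theorem common (n : N) : ∃ b, 0 < b ∧ ∀ j, 0 < j → j ≤ n → j ∣ b := by
  have hd : Dfn L (Set.univ : Set N) fun v => ∃ b, 0 < b ∧ ∀ j, 0 < j → j ≤ v 0 → j ∣ b := by
    have h1 : Dfn L (Set.univ : Set N) fun w => 0 < w 0 → w 0 ≤ w 2 → w 0 ∣ w 1 :=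
      (h.lt h.zero (DF.var 0)).imp ((h.le (DF.var 0) (DF.var 2)).imp (h.dvd (DF.var 0) (DF.var 1)))
    have h2 : Dfn L (Set.univ : Set N) fun w => 0 < w 0 ∧ ∀ j, 0 < j → j ≤ w 1 → j ∣ w 0 :=
      (h.lt h.zero (DF.var 0)).and h1.all
    exact h2.ex
  refine h.ind (fun n => ∃ b, 0 < b ∧ ∀ j, 0 < j → j ≤ n → j ∣ b) hd
    ⟨1, zero_lt_one, fun j hj hj' => absurd (lt_of_lt_of_le hj hj') (lt_irrefl 0)⟩ ?_ n
  rintro x ⟨b, hb, hb'⟩
  refine ⟨b * (x + 1), mul_pos hb (lt_of_le_of_lt zero_le (h.lt_succ.2 le_rfl)),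
    fun j hj hj' => ?_⟩
  rcases hj'.lt_or_eq with h1 | rfl
  · exact Dvd.dvd.mul_right (hb' j hj (h.lt_succ.1 h1)) _
  · exact dvd_mul_left _ _

/-- the divisors used for coding -/
theorem coprime_m {n b : N} (hb : ∀ j, 0 < j → j ≤ n → j ∣ b) {i j : N} (hj : j < n)
    (hij : i < j) {d : N} (h1 : d ∣ (i + 1) * b + 1) (h2 : d ∣ (j + 1) * b + 1) : d = 1 := by
  obtain ⟨k, hk, rfl⟩ := lt_iff_ex.1 hij
  have h3 : d ∣ b * k := by
    refine dvd_of_add (a := (i + 1) * b + 1) ?_ h1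
    have : (i + 1) * b + 1 + b * k = (i + k + 1) * b + 1 := by ring
    rw [this]
    exact h2
  have h4 : d ∣ k := by
    refine h.euclid (y := b) (fun e he he' => ?_) h3
    refine h.dvd_one (dvd_of_add (he.trans h1) (Dvd.dvd.mul_left he' _))
  have h5 : k ∣ b := hb k (pos_iff_ne_zero.2 hk) ((le_add_self).trans hj.le)
  exact h.dvd_one (dvd_of_add h1 (Dvd.dvd.mul_left (h4.trans h5) _))

/-- coding of the definable sets -/
theorem exists_div_code {S : N → Prop} (hS : Dfn L (Set.univ : Set N) fun v => S (v 0)) (n : N) :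
    ∃ a b : N, ∀ i, i < n → ((i + 1) * b + 1 ∣ a ↔ S i) := by
  obtain ⟨b, hb0, hb⟩ := h.common n
  have hcop : ∀ i j, i < n → j < n → i ≠ j → ∀ d, d ∣ (i + 1) * b + 1 → d ∣ (j + 1) * b + 1 →
      d = 1 := by
    intro i j hi hj hij d h1 h2
    rcases lt_or_gt_of_ne hij with h3 | h3
    · exact h.coprime_m hb hj h3 h1 h2
    · exact h.coprime_m hb hi h3 h2 h1
  have key : ∀ k, k ≤ n → ∃ a, ∀ i, i < n → ((i + 1) * b + 1 ∣ a ↔ i < k ∧ S i) := by
    intro k
    have hd : Dfn L (Set.univ : Set N) fun v => v 0 ≤ n → ∃ a, ∀ i, i < n →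
        ((i + 1) * b + 1 ∣ a ↔ i < v 0 ∧ S i) := by
      have h1 : Dfn L (Set.univ : Set N) fun w => w 0 < n →
          ((w 0 + 1) * b + 1 ∣ w 1 ↔ w 0 < w 2 ∧ S (w 0)) := by
        refine (h.lt (DF.var 0) (DF.par n)).imp (Dfn.iff ?_ ?_)
        · exact h.dvd (h.add (h.mul (h.add (DF.var 0) h.one) (DF.par b)) h.one) (DF.var 1)
        · exact (h.lt (DF.var 0) (DF.var 2)).and hS
      exact (h.le (DF.var 0) (DF.par n)).imp h1.all.ex
    refine h.ind (fun k => k ≤ n → ∃ a, ∀ i, i < n → ((i + 1) * b + 1 ∣ a ↔ i < k ∧ S i)) hd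
      ?_ ?_ k
    · intro _
      refine ⟨1, fun i _ => ⟨fun h1 => ?_, fun h1 => absurd h1.1 not_lt_zero⟩⟩
      exfalso
      have h2 := h.dvd_one h1
      have h3 : (0 : N) < (i + 1) * b := mul_pos (lt_of_le_of_lt zero_le (h.lt_succ.2 le_rfl)) hb0
      have h4 : (1 : N) < (i + 1) * b + 1 := lt_add_of_pos_left 1 h3
      exact h4.ne' h2
    · intro k ih hk
      have hkn : k < n := lt_of_lt_of_le (h.lt_succ.2 le_rfl) hk
      obtain ⟨a, ha⟩ := ih hkn.le
      by_cases hSk : S k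
      · refine ⟨((k + 1) * b + 1) * a, fun i hi => ?_⟩
        rcases eq_or_ne i k with rfl | hik
        · exact ⟨fun _ => ⟨h.lt_succ.2 le_rfl, hSk⟩, fun _ => dvd_mul_right _ _⟩
        · have h1 : (i + 1) * b + 1 ∣ ((k + 1) * b + 1) * a ↔ (i + 1) * b + 1 ∣ a :=
            ⟨fun h2 => h.euclid (hcop i k hi hkn hik) h2, fun h2 => Dvd.dvd.mul_left h2 _⟩
          rw [h1, ha i hi]
          refine and_congr_left fun _ => ?_
          rw [h.lt_succ]
          exact ⟨fun h2 => h2.le, fun h2 => lt_of_le_of_ne h2 hik⟩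
      · refine ⟨a, fun i hi => ?_⟩
        rw [ha i hi]
        constructor
        · rintro ⟨h1, h2⟩
          exact ⟨h.lt_succ.2 h1.le, h2⟩
        · rintro ⟨h1, h2⟩
          rcases (h.lt_succ.1 h1).lt_or_eq with h3 | rfl
          · exact ⟨h3, h2⟩
          · exact absurd h2 hSk
  obtain ⟨a, ha⟩ := key n le_rfl
  exact ⟨a, b, fun i hi => (ha i hi).trans ⟨fun h1 => h1.2, fun h1 => ⟨hi, h1⟩⟩⟩

omit h in
theorem sq_lt {a b : N} (h1 : a < b) : a * a < b * b := by
  have h2 : (0 : N) < b := lt_of_le_of_lt zero_le h1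
  calc a * a ≤ a * b := mul_le_mul_of_nonneg_left h1.le zero_le
    _ < b * b := mul_lt_mul_of_pos_right h1 h2

theorem prN_inj {x y x' y' : N} (h1 : prN x y = prN x' y') : x = x' ∧ y = y' := by
  unfold prN at h1
  have key : ∀ x y x' y' : N, (x + y) * (x + y) + x = (x' + y') * (x' + y') + x' →
      ¬ x + y < x' + y' := by
    intro x y x' y' h2 h3
    have h4 : x + y + 1 ≤ x' + y' := le_of_not_gt fun h5 => not_lt.2 (h.lt_succ.1 h5) h3
    have h5 : (x + y + 1) * (x + y + 1) ≤ (x' + y') * (x' + y') := by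
      rcases h4.lt_or_eq with h6 | h6
      · exact (sq_lt h6).le
      · rw [h6]
    have h6 : (x + y) * (x + y) + x < (x + y + 1) * (x + y + 1) := by
      have : (x + y + 1) * (x + y + 1) = (x + y) * (x + y) + x + (x + y + y + 1) := by ring
      rw [this]
      exact lt_add_of_pos_right _ (lt_of_le_of_lt zero_le (h.lt_succ.2 le_rfl))
    have h7 : (x + y) * (x + y) + x < (x' + y') * (x' + y') + x' :=
      lt_of_lt_of_le (lt_of_lt_of_le h6 h5) le_self_add
    exact h7.ne h2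
  have h2 : x + y = x' + y' := by
    rcases lt_trichotomy (x + y) (x' + y') with h3 | h3 | h3
    · exact absurd h3 (key _ _ _ _ h1)
    · exact h3
    · exact absurd h3 (key _ _ _ _ h1.symm)
  rw [h2] at h1
  have h3 : x = x' := add_left_cancel h1
  rw [h3] at h2
  exact ⟨h3, add_left_cancel h2⟩

end Ari

/-- the membership relation -/
def EN (i s : N) : Prop := ∃ a b, s = prN a b ∧ (i + 1) * b + 1 ∣ a

namespace Ari
variable {L : FirstOrder.Language.{0, 0}} [L.Structure N] (h : Ari L N)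
include h

theorem dEN {A : Set N} {s t : (ℕ → N) → N} (hs : DF L A s) (ht : DF L A t) :
    Dfn L A fun v => EN (s v) (t v) := by
  refine Dfn.rel2 (R := fun x y => EN x y) ?_ hs ht
  have h1 : Dfn L A fun w => w 3 = (w 1 + w 0) * (w 1 + w 0) + w 1 ∧
      (w 2 + 1) * w 0 + 1 ∣ w 1 := by
    refine (Dfn.eqT (DF.var 3) ?_).and ?_
    · exact h.add (h.mul (h.add (DF.var 1) (DF.var 0)) (h.add (DF.var 1) (DF.var 0))) (DF.var 1)
    · exact h.dvd (h.add (h.mul (h.add (DF.var 2) h.one) (DF.var 0)) h.one) (DF.var 1)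
  exact h1.ex.ex

theorem exists_code {S : N → Prop} (hS : Dfn L (Set.univ : Set N) fun v => S (v 0)) (n : N) :
    ∃ s, ∀ i, i < n → (EN i s ↔ S i) := by
  obtain ⟨a, b, hab⟩ := h.exists_div_code hS n
  refine ⟨prN a b, fun i hi => ?_⟩
  rw [← hab i hi]
  constructor
  · rintro ⟨a', b', h1, h2⟩
    obtain ⟨rfl, rfl⟩ := h.prN_inj h1
    exact h2
  · intro h1
    exact ⟨a, b, rfl, h1⟩

/-- collection -/
theorem coll {R : N → N → Prop} (hR : Dfn L (Set.univ : Set N) fun v => R (v 0) (v 1))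
    (hx : ∀ u, ∃ x, R u x) (m : N) : ∃ b, ∀ u, u < m → ∃ x, x < b ∧ R u x := by
  have hd : Dfn L (Set.univ : Set N) fun v => ∃ b, ∀ u, u < v 0 → ∃ x, x < b ∧ R u x := by
    have h1 : Dfn L (Set.univ : Set N) fun w => w 0 < w 2 ∧ R (w 1) (w 0) :=
      (h.lt (DF.var 0) (DF.var 2)).and (hR.ren2 1 0)
    have h2 : Dfn L (Set.univ : Set N) fun w => w 0 < w 2 → ∃ x, x < w 1 ∧ R (w 0) x :=
      (h.lt (DF.var 0) (DF.var 2)).imp h1.ex
    exact h2.all.ex
  refine h.ind (fun m => ∃ b, ∀ u, u < m → ∃ x, x < b ∧ R u x) hd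
    ⟨0, fun u hu => absurd hu not_lt_zero⟩ ?_ m
  rintro m ⟨b, hb⟩
  obtain ⟨x0, hx0⟩ := hx m
  refine ⟨b + (x0 + 1), fun u hu => ?_⟩
  rcases (h.lt_succ.1 hu).lt_or_eq with h1 | rfl
  · obtain ⟨x, hx, hx'⟩ := hb u h1
    exact ⟨x, lt_of_lt_of_le hx le_self_add, hx'⟩
  · exact ⟨x0, lt_of_lt_of_le (h.lt_succ.2 le_rfl) le_add_self, hx0⟩

/-- bounded codes -/
theorem bounded_codes (n : N) :
    ∃ B, ∀ s, ∃ s', s' < B ∧ ∀ i, i < n → (EN i s' ↔ EN i s) := by
  have hd : Dfn L (Set.univ : Set N) fun v => ∃ B, ∀ s, ∃ s', s' < B ∧ ∀ i, i < v 0 →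
      (EN i s' ↔ EN i s) := by
    have h1 : Dfn L (Set.univ : Set N) fun w => w 0 < w 4 → (EN (w 0) (w 1) ↔ EN (w 0) (w 2)) :=
      (h.lt (DF.var 0) (DF.var 4)).imp
        ((h.dEN (DF.var 0) (DF.var 1)).iff (h.dEN (DF.var 0) (DF.var 2)))
    have h2 : Dfn L (Set.univ : Set N) fun w => w 0 < w 2 ∧
        ∀ i, i < w 3 → (EN i (w 0) ↔ EN i (w 1)) := (h.lt (DF.var 0) (DF.var 2)).and h1.all
    exact h2.ex.all.ex
  refine h.ind (fun n => ∃ B, ∀ s, ∃ s', s' < B ∧ ∀ i, i < n → (EN i s' ↔ EN i s)) hd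
    ⟨1, fun s => ⟨0, zero_lt_one, fun i hi => absurd hi not_lt_zero⟩⟩ ?_ n
  rintro n ⟨B, hB⟩
  -- codes without and with the element `n`
  have h0 : ∀ s, ∃ x, ∀ i, i < n + 1 → (EN i x ↔ i < n ∧ EN i s) := by
    intro s
    have h1 : Dfn L (Set.univ : Set N) fun v => v 0 < n ∧ EN (v 0) s :=
      (h.lt (DF.var 0) (DF.par n)).and (h.dEN (DF.var 0) (DF.par s))
    exact h.exists_code (S := fun i => i < n ∧ EN i s) h1 (n + 1)
  have h1 : ∀ s, ∃ x, ∀ i, i < n + 1 → (EN i x ↔ (i < n ∧ EN i s) ∨ i = n) := by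
    intro s
    have h1 : Dfn L (Set.univ : Set N) fun v => (v 0 < n ∧ EN (v 0) s) ∨ v 0 = n :=
      ((h.lt (DF.var 0) (DF.par n)).and (h.dEN (DF.var 0) (DF.par s))).or
        (Dfn.eqT (DF.var 0) (DF.par n))
    exact h.exists_code (S := fun i => (i < n ∧ EN i s) ∨ i = n) h1 (n + 1)
  have hd0 : Dfn L (Set.univ : Set N) fun v => ∀ i, i < n + 1 →
      (EN i (v 1) ↔ i < n ∧ EN i (v 0)) := by
    have h2 : Dfn L (Set.univ : Set N) fun w => w 0 < n + 1 →
        (EN (w 0) (w 2) ↔ w 0 < n ∧ EN (w 0) (w 1)) :=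
      (h.lt (DF.var 0) (DF.par (n + 1))).imp ((h.dEN (DF.var 0) (DF.var 2)).iff
        ((h.lt (DF.var 0) (DF.par n)).and (h.dEN (DF.var 0) (DF.var 1))))
    exact h2.all
  have hd1 : Dfn L (Set.univ : Set N) fun v => ∀ i, i < n + 1 →
      (EN i (v 1) ↔ (i < n ∧ EN i (v 0)) ∨ i = n) := by
    have h2 : Dfn L (Set.univ : Set N) fun w => w 0 < n + 1 →
        (EN (w 0) (w 2) ↔ (w 0 < n ∧ EN (w 0) (w 1)) ∨ w 0 = n) :=
      (h.lt (DF.var 0) (DF.par (n + 1))).imp ((h.dEN (DF.var 0) (DF.var 2)).iff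
        (((h.lt (DF.var 0) (DF.par n)).and (h.dEN (DF.var 0) (DF.var 1))).or
          (Dfn.eqT (DF.var 0) (DF.par n))))
    exact h2.all
  obtain ⟨b0, hb0⟩ := h.coll (R := fun s x => ∀ i, i < n + 1 → (EN i x ↔ i < n ∧ EN i s)) hd0 h0 B
  obtain ⟨b1, hb1⟩ := h.coll (R := fun s x => ∀ i, i < n + 1 → (EN i x ↔ (i < n ∧ EN i s) ∨ i = n))
    hd1 h1 B
  refine ⟨b0 + b1, fun s => ?_⟩
  obtain ⟨s', hs', hs''⟩ := hB s
  by_cases hn : EN n s
  · obtain ⟨x, hx, hx'⟩ := hb1 s' hs'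
    refine ⟨x, lt_of_lt_of_le hx le_add_self, fun i hi => ?_⟩
    rw [hx' i hi]
    rcases (h.lt_succ.1 hi).lt_or_eq with h2 | rfl
    · rw [hs'' i h2]
      exact ⟨fun h3 => h3.elim (fun h4 => h4.2) fun h4 => absurd h4 h2.ne, fun h3 => Or.inl ⟨h2, h3⟩⟩
    · exact ⟨fun _ => hn, fun _ => Or.inr rfl⟩
  · obtain ⟨x, hx, hx'⟩ := hb0 s' hs'
    refine ⟨x, lt_of_lt_of_le hx le_self_add, fun i hi => ?_⟩
    rw [hx' i hi]
    rcases (h.lt_succ.1 hi).lt_or_eq with h2 | rfl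
    · rw [hs'' i h2]
      exact ⟨fun h3 => h3.2, fun h3 => ⟨h2, h3⟩⟩
    · exact ⟨fun h3 => absurd h3.1 (lt_irrefl _), fun h3 => absurd h3 hn⟩

end Ari

/-- the coding structure -/
noncomputable def Ari.cod {L : FirstOrder.Language.{0, 0}} [L.Structure N] (h : Ari L N) :
    Cod L N where
  lt := fun x y => x < y
  pr := prN
  E := EN
  dlt := h.lt (DF.var 0) (DF.var 1)
  dpr := Dfn.eqT (DF.var 0) (h.add (h.mul (h.add (DF.var 1) (DF.var 2))
    (h.add (DF.var 1) (DF.var 2))) (DF.var 1))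
  dE := h.dEN (DF.var 0) (DF.var 1)
  tri := lt_trichotomy
  irrefl := lt_irrefl
  trans := fun _ _ _ => lt_trans
  nomax := fun x => ⟨x + 1, h.lt_succ.2 le_rfl⟩
  pred := by
    intro m x hx
    have h1 : (1 : N) ≤ m := by
      by_contra h2
      rw [h.disc m (not_le.1 h2)] at hx
      exact not_lt_zero hx
    obtain ⟨m', rfl⟩ := exists_add_of_le h1
    rw [add_comm 1 m']
    exact ⟨m', h.lt_succ.2 le_rfl, fun y hy => (h.lt_succ.1 hy).lt_or_eq⟩
  lnp := fun S hS hx => h.lnp hS hx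
  pr_inj := fun _ _ _ _ => h.prN_inj
  code := fun S hS n => h.exists_code hS n
  bd := h.bounded_codes

end

end Pool.Agent.TH752.AR
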