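import Pool.Agent.TH752.AR.Dfn

/-!
Structures with a definable order satisfying the least number principle, and with definable coding
of bounded definable sets. Collection; the splitting theorem; an argument excluding the pentagon
whose lower part is cofinal.
-/

set_option autoImplicit false

open FirstOrder FirstOrder.Language

universe u w

namespace Pool.Agent.TH752.AR

/-- a definable order, pairing function and membership relation -/
structure Cod (L : FirstOrder.Language.{0, 0}) (N : Type u) [L.Structure N] where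
  lt : N → N → Prop
  pr : N → N → N
  E : N → N → Prop
  dlt : Dfn L (∅ : Set N) fun v => lt (v 0) (v 1)
  dpr : Dfn L (∅ : Set N) fun v => v 0 = pr (v 1) (v 2)
  dE : Dfn L (∅ : Set N) fun v => E (v 0) (v 1)
  tri : ∀ x y, lt x y ∨ x = y ∨ lt y x
  irrefl : ∀ x, ¬ lt x x
  trans : ∀ x y z, lt x y → lt y z → lt x z
  nomax : ∀ x, ∃ y, lt x y
  pred : ∀ m x, lt x m → ∃ m', lt m' m ∧ ∀ y, lt y m → lt y m' ∨ y = m'
  lnp : ∀ S : N → Prop, Dfn L (Set.univ : Set N) (fun v => S (v 0)) → (∃ x, S x) →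
    ∃ x, S x ∧ ∀ y, lt y x → ¬ S y
  pr_inj : ∀ x y x' y', pr x y = pr x' y' → x = x' ∧ y = y'
  code : ∀ S : N → Prop, Dfn L (Set.univ : Set N) (fun v => S (v 0)) → ∀ n, ∃ s, ∀ i, lt i n →
    (E i s ↔ S i)
  bd : ∀ n, ∃ B, ∀ s, ∃ s', lt s' B ∧ ∀ i, lt i n → (E i s' ↔ E i s)

section
variable {L : FirstOrder.Language.{0, 0}} {N : Type u} [L.Structure N]

/-- renaming of two variables -/
theorem Dfn.ren2 {A : Set N} {R : N → N → Prop} (h : Dfn L A fun v => R (v 0) (v 1)) (i j : ℕ) :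
    Dfn L A fun v => R (v i) (v j) :=
  h.ren (fun n => match n with | 0 => i | _ + 1 => j)

/-- renaming of three variables -/
theorem Dfn.ren3 {A : Set N} {R : N → N → N → Prop} (h : Dfn L A fun v => R (v 0) (v 1) (v 2))
    (i j k : ℕ) : Dfn L A fun v => R (v i) (v j) (v k) :=
  h.ren (fun n => match n with | 0 => i | 1 => j | _ + 2 => k)

/-- a relation of two arguments from a relation on sequences -/
theorem Dfn.two {A : Set N} {T : (ℕ → N) → Prop} (h : Dfn L A T) (i j : ℕ) :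
    Dfn L A fun v => T (scons (v i) fun _ => v j) := by
  refine (h.ren (fun n => match n with | 0 => i | _ + 1 => j)).congr fun v => ?_
  have : v ∘ (fun n => match n with | 0 => i | _ + 1 => j) = scons (v i) fun _ => v j := by
    funext n
    cases n <;> rfl
  rw [this]

namespace Cod
variable (c : Cod L N)

theorem dlt' {A : Set N} (i j : ℕ) : Dfn L A fun v => c.lt (v i) (v j) := c.dlt.mono0.ren2 i j

theorem dE' {A : Set N} (i j : ℕ) : Dfn L A fun v => c.E (v i) (v j) := c.dE.mono0.ren2 i j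

theorem dpr' {A : Set N} (i j k : ℕ) : Dfn L A fun v => v i = c.pr (v j) (v k) :=
  Dfn.ren3 (R := fun x y z => x = c.pr y z) c.dpr.mono0 i j k

/-- a nonempty definable set has an element definable from the same parameters -/
theorem exists_dc {A : Set N} {S : N → Prop} (hS : Dfn L A fun v => S (v 0))
    (hx : ∃ x, S x) : ∃ x, S x ∧ Dc L A x ∧ ∀ y, c.lt y x → ¬ S y := by
  obtain ⟨x, hx, hx'⟩ := c.lnp S (hS.mono (Set.subset_univ _)) hx
  refine ⟨x, hx, ?_, hx'⟩
  have h1 : Dfn L A fun v => S (v 0) ∧ ∀ y, (c.lt (scons y v 0) (scons y v 1) → ¬ S (scons y v 0)) :=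
    hS.and (((c.dlt' 0 1).imp hS.not).all)
  refine h1.congr fun v => ?_
  constructor
  · rintro ⟨h2, h3⟩
    rcases c.tri (v 0) x with h4 | h4 | h4
    · exact absurd h2 (hx' _ h4)
    · exact h4
    · exact absurd hx (h3 x h4)
  · intro h2
    rw [h2]
    exact ⟨hx, fun y hy => hx' y (by simpa [h2] using hy)⟩

include c in
/-- the definable closure of a set meets all the definable sets -/
theorem dc_meets (A : Set N) : L.MeetsDefinable {x : N | Dc L A x} := by
  intro D hne hD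
  have h1 := dfn_one.1 hD
  have h2 : Dfn L A fun v => v 0 ∈ D := h1.trans fun b hb => hb
  obtain ⟨x, hx, hx', -⟩ := c.exists_dc h2 hne
  exact ⟨x, hx, hx'⟩

/-- the elementary substructure generated by a set -/
noncomputable def hull (A : Set N) : L.ElementarySubstructure N :=
  (c.dc_meets A).toElementarySubstructure

theorem mem_hull (A : Set N) (x : N) : x ∈ c.hull A ↔ Dc L A x := by
  have h1 : ((c.hull A : L.ElementarySubstructure N) : Set N) = {x : N | Dc L A x} :=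
    (c.dc_meets A).closure_eq_self
  exact Set.ext_iff.1 h1 x

end Cod

/-- an elementary substructure is closed under definability -/
theorem mem_of_dc {K : L.ElementarySubstructure N} {x : N} (hx : Dc L (K : Set N) x) : x ∈ K := by
  have h1 : (K : Set N).Definable₁ L {x} := dfn_one.2 (hx.congr fun v => by simp)
  obtain ⟨y, hy, hy'⟩ := K.meetsDefinable {x} ⟨x, rfl⟩ h1
  have : y = x := hy
  rwa [← this]

theorem mem_of_dc' {K : L.ElementarySubstructure N} {A : Set N} {x : N} (hx : Dc L A x)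
    (hA : A ⊆ K) : x ∈ K := mem_of_dc (hx.mono hA)

/-- the image of an elementary embedding is closed under definability -/
theorem dc_range {M : Type w} [L.Structure M] (f : M ↪ₑ[L] N) {x : N}
    (hx : Dc L (Set.range f) x) : x ∈ Set.range f := by
  classical
  obtain ⟨φ, hφ⟩ := dfn_iff.1 hx
  have hch : ∀ a : ↥(Set.range f), ∃ m, f m = (a : N) := fun a => a.2
  choose g hg using hch
  let ψ : L.Formula (↥(Set.range f) ⊕ Unit) := φ.relabel (Sum.map id fun _ => ())
  have h1 : ∀ y, Formula.Realize ψ (Sum.elim (fun a : ↥(Set.range f) => (a : N))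
      fun _ : Unit => y) ↔ y = x := by
    intro y
    rw [Formula.realize_relabel, ← hφ fun _ => y]
    have : (Sum.elim (fun a : ↥(Set.range f) => (a : N)) fun _ : Unit => y) ∘
        (Sum.map id fun _ => () : ↥(Set.range f) ⊕ ℕ → ↥(Set.range f) ⊕ Unit) =
        Sum.elim Subtype.val fun _ => y := by
      funext z
      rcases z with z | z <;> rfl
    rw [this]
  have h2 : (Formula.iExs Unit ψ).Realize (f ∘ g) := by
    rw [Formula.realize_iExs]
    refine ⟨fun _ => x, ?_⟩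
    have e1 : f ∘ g = fun a : ↥(Set.range f) => (a : N) := funext hg
    rw [e1]
    exact (h1 x).2 rfl
  rw [f.map_formula, Formula.realize_iExs] at h2
  obtain ⟨m, hm⟩ := h2
  have h3 := (f.map_formula ψ _).2 hm
  refine ⟨m (), (h1 (f (m ()))).1 ?_⟩
  have e2 : (⇑f ∘ Sum.elim g m) =
      Sum.elim (fun a : ↥(Set.range f) => (a : N)) fun _ : Unit => f (m ()) := by
    funext z
    rcases z with z | z
    · exact hg z
    · rfl
  rw [e2] at h3
  exact h3

namespace Cod
variable (c : Cod L N)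

theorem dc_pr (x y : N) : Dc L ({x, y} : Set N) (c.pr x y) := by
  have h1 : Dfn L ({x, y} : Set N) fun v => v 2 = c.pr (v 1) (v 0) := c.dpr' 2 1 0
  have h2 : Dfn L ({x, y} : Set N) fun v => v 1 = c.pr (v 0) y := h1.subst (dc_of_mem (by simp))
  have h3 : Dfn L ({x, y} : Set N) fun v => v 0 = c.pr x y := h2.subst (dc_of_mem (by simp))
  exact h3

theorem pr_mem {K : L.ElementarySubstructure N} {x y : N} (hx : x ∈ K) (hy : y ∈ K) :
    c.pr x y ∈ K := by
  refine mem_of_dc' (c.dc_pr x y) ?_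
  intro z hz
  rcases hz with rfl | hz
  · exact hx
  · rw [Set.mem_singleton_iff.1 hz]
    exact hy

theorem dc_pr_left (x y : N) : Dc L ({c.pr x y} : Set N) x := by
  have h1 : Dfn L ({c.pr x y} : Set N) fun v => v 0 = c.pr (v 2) (v 1) := c.dpr' 0 2 1
  have h2 := (h1.subst (dc_of_mem (Set.mem_singleton _))).ex
  refine h2.congr fun v => ?_
  constructor
  · rintro ⟨y', h2⟩
    have h3 : c.pr x y = c.pr (v 0) y' := h2
    exact (c.pr_inj _ _ _ _ h3).1.symm
  · intro hv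
    exact ⟨y, by show c.pr x y = c.pr (v 0) y; rw [hv]⟩

theorem dc_pr_right (x y : N) : Dc L ({c.pr x y} : Set N) y := by
  have h1 : Dfn L ({c.pr x y} : Set N) fun v => v 0 = c.pr (v 1) (v 2) := c.dpr' 0 1 2
  have h2 := (h1.subst (dc_of_mem (Set.mem_singleton _))).ex
  refine h2.congr fun v => ?_
  constructor
  · rintro ⟨y', h2⟩
    have h3 : c.pr x y = c.pr y' (v 0) := h2
    exact (c.pr_inj _ _ _ _ h3).2.symm
  · intro hv
    exact ⟨x, by show c.pr x y = c.pr x (v 0); rw [hv]⟩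

/-- finitely many elements are definable from one -/
theorem exists_code (P : N → Prop) (hne : ∃ x, P x) (hpr : ∀ x y, P x → P y → P (c.pr x y))
    (F : Finset N) (hF : ∀ b ∈ F, P b) : ∃ a, P a ∧ ∀ b ∈ F, Dc L ({a} : Set N) b := by
  classical
  induction F using Finset.induction_on with
  | empty =>
    obtain ⟨x, hx⟩ := hne
    exact ⟨x, hx, by simp⟩
  | insert b F hb ih =>
    obtain ⟨a, ha, ha'⟩ := ih fun c hc => hF c (Finset.mem_insert_of_mem hc)
    refine ⟨c.pr b a, hpr b a (hF b (Finset.mem_insert_self b F)) ha, fun d hd => ?_⟩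
    rcases Finset.mem_insert.1 hd with rfl | hd
    · exact c.dc_pr_left d a
    · exact (ha' d hd).trans fun e he => by
        rw [Set.mem_singleton_iff.1 he]
        exact c.dc_pr_right b a

/-- collection -/
theorem coll {R : N → N → Prop} (hR : Dfn L (Set.univ : Set N) fun v => R (v 0) (v 1)) (m : N)
    (h : ∀ u, c.lt u m → ∃ x, R u x) : ∃ b, ∀ u, c.lt u m → ∃ x, c.lt x b ∧ R u x := by
  have key : ∀ m' : N, (∀ u, c.lt u m' → c.lt u m) → ∃ b, ∀ u, c.lt u m' → ∃ x, c.lt x b ∧ R u x := by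
    by_contra hcon
    push Not at hcon
    obtain ⟨m1, hm1, hm2⟩ := hcon
    let S : N → Prop := fun m' => (∀ u, c.lt u m' → c.lt u m) ∧
      ¬ ∃ b, ∀ u, c.lt u m' → ∃ x, c.lt x b ∧ R u x
    have hS : Dfn L (Set.univ : Set N) fun v => S (v 0) := by
      have h1 : Dfn L (Set.univ : Set N) fun v => ∀ u, c.lt (scons u v 0) (scons u v 1) →
          c.lt (scons u v 0) (scons m (scons u v) 0) := by
        have h2 : Dfn L (Set.univ : Set N) fun w => c.lt (w 1) (w 0) := c.dlt' 1 0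
        have h3 := h2.subst (dc_of_mem (Set.mem_univ m))
        exact ((c.dlt' 0 1).imp h3).all
      have h4 : Dfn L (Set.univ : Set N) fun w => c.lt (w 0) (w 2) ∧ R (w 1) (w 0) :=
        (c.dlt' 0 2).and (hR.ren2 1 0)
      have h5 : Dfn L (Set.univ : Set N) fun w => c.lt (w 0) (w 2) →
          ∃ x, c.lt x (w 1) ∧ R (w 0) x := (c.dlt' 0 2).imp h4.ex
      exact h1.and h5.all.ex.not
    obtain ⟨m0, ⟨h0, h1⟩, h2⟩ := c.lnp S hS ⟨m1, hm1, fun ⟨b, hb⟩ => by
      obtain ⟨u, hu, hu'⟩ := hm2 b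
      obtain ⟨x, hx, hx'⟩ := hb u hu
      exact hu' x hx hx'⟩
    by_cases hz : ∃ x, c.lt x m0
    · obtain ⟨x, hx⟩ := hz
      obtain ⟨m', h3, h4⟩ := c.pred m0 x hx
      have h5 : ∀ u, c.lt u m' → c.lt u m := fun u hu => h0 u (c.trans _ _ _ hu h3)
      have h6 : ∃ b, ∀ u, c.lt u m' → ∃ x, c.lt x b ∧ R u x := by
        by_contra h7
        exact h2 m' h3 ⟨h5, h7⟩
      obtain ⟨b', hb'⟩ := h6
      obtain ⟨x0, hx0⟩ := h m' (h0 m' h3)
      obtain ⟨y0, hy0⟩ := c.nomax x0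
      refine h1 ?_
      rcases c.tri b' y0 with h7 | h7 | h7
      · refine ⟨y0, fun u hu => ?_⟩
        rcases h4 u hu with h8 | rfl
        · obtain ⟨x, hx, hx'⟩ := hb' u h8
          exact ⟨x, c.trans _ _ _ hx h7, hx'⟩
        · exact ⟨x0, hy0, hx0⟩
      · subst h7
        refine ⟨b', fun u hu => ?_⟩
        rcases h4 u hu with h8 | rfl
        · exact hb' u h8
        · exact ⟨x0, hy0, hx0⟩
      · refine ⟨b', fun u hu => ?_⟩
        rcases h4 u hu with h8 | rfl
        · exact hb' u h8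
        · exact ⟨x0, c.trans _ _ _ hy0 h7, hx0⟩
    · exact h1 ⟨m0, fun u hu => absurd ⟨u, hu⟩ hz⟩
  exact key m fun u hu => hu

/-- elements above the elements of an elementary substructure -/
theorem exists_above {K : L.ElementarySubstructure N} {x : N} (hx : x ∈ K) :
    ∃ y ∈ K, c.lt x y := by
  have h1 : Dfn L ({x} : Set N) fun v => c.lt (v 0) (v 1) := c.dlt' 0 1
  have h2 := h1.subst (dc_of_mem (Set.mem_singleton x))
  obtain ⟨y, hy, hy', -⟩ := c.exists_dc (S := fun y => c.lt x y) h2 (c.nomax x)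
  exact ⟨y, mem_of_dc' hy' (Set.singleton_subset_iff.2 hx), hy⟩

/-- bound of the pairs -/
theorem pr_bound (m m' : N) : ∃ B, ∀ x, c.lt x m → ∀ y, c.lt y m' → c.lt (c.pr x y) B := by
  have h1 : ∀ x, ∃ b, ∀ y, c.lt y m' → c.lt (c.pr x y) b := by
    intro x
    have hR : Dfn L (Set.univ : Set N) fun v => v 1 = c.pr x (v 0) := by
      have h2 : Dfn L (Set.univ : Set N) fun v => v 2 = c.pr (v 0) (v 1) := c.dpr' 2 0 1
      exact h2.subst (dc_of_mem (Set.mem_univ x))
    obtain ⟨b, hb⟩ := c.coll (R := fun y z => z = c.pr x y) hR m' fun y _ => ⟨_, rfl⟩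
    refine ⟨b, fun y hy => ?_⟩
    obtain ⟨z, hz, rfl⟩ := hb y hy
    exact hz
  have hR : Dfn L (Set.univ : Set N) fun v => ∀ y, c.lt y m' → c.lt (c.pr (v 0) y) (v 1) := by
    have h2 : Dfn L (Set.univ : Set N) fun v => c.lt (v 1) (v 0) := c.dlt' 1 0
    have h3 : Dfn L (Set.univ : Set N) fun v => c.lt (v 0) m' :=
      h2.subst (dc_of_mem (Set.mem_univ m'))
    have h4 : Dfn L (Set.univ : Set N) fun v => v 0 = c.pr (v 2) (v 1) ∧ c.lt (v 0) (v 3) :=
      (c.dpr' 0 2 1).and (c.dlt' 0 3)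
    refine (h3.imp h4.ex).all.congr fun v => ?_
    refine forall_congr' fun y => imp_congr Iff.rfl ?_
    constructor
    · rintro ⟨z, hz, hz'⟩
      have e : z = c.pr (v 0) y := hz
      rw [← e]
      exact hz'
    · intro hz
      exact ⟨_, rfl, hz⟩
  obtain ⟨b, hb⟩ := c.coll (R := fun x b => ∀ y, c.lt y m' → c.lt (c.pr x y) b) hR m
    fun x _ => h1 x
  refine ⟨b, fun x hx y hy => ?_⟩
  obtain ⟨z, hz, hz'⟩ := hb x hx
  exact c.trans _ _ _ (hz' y hy) hz

/-- the splitting theorem: the elements bounded by an elementary substructure form an elementary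
substructure -/
theorem split (K0 : L.ElementarySubstructure N) :
    ∃ K : L.ElementarySubstructure N, ∀ x, x ∈ K ↔ ∃ m ∈ K0, c.lt x m := by
  classical
  have hprP : ∀ x y, (∃ m ∈ K0, c.lt x m) → (∃ m ∈ K0, c.lt y m) →
      ∃ m ∈ K0, c.lt (c.pr x y) m := by
    rintro x y ⟨m, hm, hxm⟩ ⟨m', hm', hym⟩
    have h1 : Dfn L (K0 : Set N) fun v => ∀ x, c.lt x m → ∀ y, c.lt y m' →
        c.lt (c.pr x y) (v 0) := by
      have h2 : Dfn L (K0 : Set N) fun v => v 0 = c.pr (v 2) (v 1) ∧ c.lt (v 0) (v 3) :=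
        (c.dpr' 0 2 1).and (c.dlt' 0 3)
      have h3 : Dfn L (K0 : Set N) fun v => c.lt (v 0) m' :=
        Dfn.subst (R := fun v => c.lt (v 1) (v 0)) (c.dlt' 1 0) (dc_of_mem hm')
      have h4 : Dfn L (K0 : Set N) fun v => c.lt (v 0) m :=
        Dfn.subst (R := fun v => c.lt (v 1) (v 0)) (c.dlt' 1 0) (dc_of_mem hm)
      refine (h4.imp (h3.imp h2.ex).all).all.congr fun v => ?_
      refine forall_congr' fun x => imp_congr Iff.rfl (forall_congr' fun y => imp_congr Iff.rfl ?_)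
      constructor
      · rintro ⟨z, hz, hz'⟩
        have e : z = c.pr x y := hz
        rw [← e]
        exact hz'
      · intro hz
        exact ⟨_, rfl, hz⟩
    obtain ⟨B, hB, hB', -⟩ := c.exists_dc (S := fun B => ∀ x, c.lt x m → ∀ y, c.lt y m' →
        c.lt (c.pr x y) B) h1 (c.pr_bound m m')
    exact ⟨B, mem_of_dc hB', hB x hxm y hym⟩
  have hmeet : L.MeetsDefinable {x : N | ∃ m ∈ K0, c.lt x m} := by
    intro D hne hD
    have h1 := dfn_one.1 hD
    obtain ⟨A0, hA0, hA0'⟩ := h1.finite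
    obtain ⟨x0, hx0⟩ := hne
    have hneP : ∃ x, ∃ m ∈ K0, c.lt x m := by
      obtain ⟨y, -, hy, -⟩ := c.exists_dc (A := (∅ : Set N)) (S := fun _ => True)
        (Dfn.bool True) ⟨x0, trivial⟩
      have hy' : y ∈ K0 := mem_of_dc' hy (Set.empty_subset _)
      obtain ⟨m, hm, hm'⟩ := c.exists_above hy'
      exact ⟨y, m, hm, hm'⟩
    obtain ⟨a, ⟨m, hm, ham⟩, ha'⟩ := c.exists_code (fun x => ∃ m ∈ K0, c.lt x m) hneP hprP A0
      (fun b hb => hA0 hb)
    have h2 : Dfn L (insert a ∅ : Set N) fun v => v 0 ∈ D := by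
      rw [insert_empty_eq]
      exact hA0'.trans fun b hb => ha' b hb
    obtain ⟨T, hT, hT'⟩ := h2.of_insert
    have hTD : ∀ x, x ∈ D ↔ T (scons a fun _ => x) := fun x => hT' fun _ => x
    have h3 : Dfn L (∅ : Set N) fun v => T (scons (v 0) fun _ => v 1) ∨
        ∀ y, ¬ T (scons (v 0) fun _ => y) := by
      have h4 : Dfn L (∅ : Set N) fun v => ¬ T (scons (v 1) fun _ => v 0) := (hT.two 1 0).not
      exact (hT.two 0 1).or h4.all
    have h5 := c.coll (R := fun u x => T (scons u fun _ => x) ∨ ∀ y, ¬ T (scons u fun _ => y))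
      h3.mono0 m (fun u _ => by
        by_cases h6 : ∃ y, T (scons u fun _ => y)
        · obtain ⟨y, hy⟩ := h6
          exact ⟨y, Or.inl hy⟩
        · push Not at h6
          exact ⟨u, Or.inr h6⟩)
    have h6 : Dfn L (K0 : Set N) fun v => ∀ u, c.lt u m → ∃ x, c.lt x (v 0) ∧
        (T (scons u fun _ => x) ∨ ∀ y, ¬ T (scons u fun _ => y)) := by
      have h7 : Dfn L (K0 : Set N) fun v => c.lt (v 0) (v 2) ∧
          (T (scons (v 1) fun _ => v 0) ∨ ∀ y, ¬ T (scons (v 1) fun _ => y)) :=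
        (c.dlt' 0 2).and (Dfn.ren2 (R := fun u x => T (scons u fun _ => x) ∨
          ∀ y, ¬ T (scons u fun _ => y)) h3.mono0 1 0)
      have h4 : Dfn L (K0 : Set N) fun v => c.lt (v 0) m :=
        Dfn.subst (R := fun v => c.lt (v 1) (v 0)) (c.dlt' 1 0) (dc_of_mem hm)
      exact (h4.imp h7.ex).all
    obtain ⟨b, hb, hb', -⟩ := c.exists_dc (S := fun b => ∀ u, c.lt u m → ∃ x, c.lt x b ∧
        (T (scons u fun _ => x) ∨ ∀ y, ¬ T (scons u fun _ => y))) h6 h5
    have hbK : b ∈ K0 := mem_of_dc hb'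
    obtain ⟨x, hxb, hx⟩ := hb a ham
    refine ⟨x, ?_, b, hbK, hxb⟩
    rcases hx with hx | hx
    · exact (hTD x).2 hx
    · exact absurd ((hTD x0).1 hx0) (hx x0)
  refine ⟨hmeet.toElementarySubstructure, fun x => ?_⟩
  have h1 : ((hmeet.toElementarySubstructure : L.ElementarySubstructure N) : Set N) =
      {x : N | ∃ m ∈ K0, c.lt x m} := hmeet.closure_eq_self
  exact Set.ext_iff.1 h1 x

/-- the argument which excludes the pentagon whose lower part is cofinal -/
theorem pent (K0 Ka Kb Kc : L.ElementarySubstructure N)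
    (h0a : ∀ x ∈ K0, x ∈ Ka) (hab : ∀ x ∈ Ka, x ∈ Kb) (h0c : ∀ x ∈ K0, x ∈ Kc)
    (hbc : ∀ x ∈ Kb, x ∈ Kc → x ∈ K0) (hjoin : ∀ x : N, Dc L ((Ka : Set N) ∪ Kc) x)
    (hend : ∀ x ∈ Kb, ∀ y, y ∉ Kb → c.lt x y) (hcof : ∀ x ∈ Kb, ∃ m ∈ K0, c.lt x m) :
    ∀ x ∈ Kb, x ∈ Ka := by
  classical
  intro β hβ
  obtain ⟨A0, hA0, hA0'⟩ := (hjoin β).finite
  have hne : ∃ x, x ∈ Ka := by
    obtain ⟨m, hm, -⟩ := hcof β hβ
    exact ⟨m, h0a m hm⟩
  obtain ⟨α, hα, hα'⟩ := c.exists_code (fun x => x ∈ Ka) hne (fun x y hx hy => c.pr_mem hx hy)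
    (A0.filter fun b => b ∈ Ka) (fun b hb => (Finset.mem_filter.1 hb).2)
  have h1 : Dc L (insert α (Kc : Set N)) β := by
    refine hA0'.trans fun b hb => ?_
    by_cases hb' : b ∈ Ka
    · exact (hα' b (Finset.mem_filter.2 ⟨hb, hb'⟩)).mono
        (Set.singleton_subset_iff.2 (Set.mem_insert _ _))
    · rcases hA0 hb with h2 | h2
      · exact absurd h2 hb'
      · exact dc_of_mem (Set.mem_insert_of_mem _ h2)
  obtain ⟨T, hT, hT'⟩ := Dfn.of_insert h1
  have hT2 : ∀ y, T (scons α fun _ => y) ↔ y = β := fun y => (hT' fun _ => y).symm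
  let S : N → Prop := fun w => ∃ y u, w = c.pr y u ∧ T (scons u fun _ => y)
  have hS : Dfn L (Kc : Set N) fun v => S (v 0) := by
    have h2 : Dfn L (Kc : Set N) fun v => v 2 = c.pr (v 1) (v 0) ∧ T (scons (v 0) fun _ => v 1) :=
      (c.dpr' 2 1 0).and (hT.two 0 1)
    exact h2.ex.ex
  have hSα : ∀ y, S (c.pr y α) ↔ y = β := by
    intro y
    constructor
    · rintro ⟨y', u', h2, h3⟩
      obtain ⟨rfl, rfl⟩ := c.pr_inj _ _ _ _ h2
      exact (hT2 y).1 h3
    · rintro rfl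
      exact ⟨y, α, rfl, (hT2 y).2 rfl⟩
  obtain ⟨δ, hδ, hδ'⟩ := hcof (c.pr β α) (c.pr_mem hβ (hab α hα))
  -- the bound
  have hBd : Dfn L (K0 : Set N) fun v => ∀ s, ∃ s', c.lt s' (v 0) ∧
      ∀ i, c.lt i δ → (c.E i s' ↔ c.E i s) := by
    have h2 : Dfn L (K0 : Set N) fun v => c.lt (v 0) δ :=
      Dfn.subst (R := fun v => c.lt (v 1) (v 0)) (c.dlt' 1 0) (dc_of_mem hδ)
    have h3 : Dfn L (K0 : Set N) fun v => c.E (v 0) (v 1) ↔ c.E (v 0) (v 2) :=
      (c.dE' 0 1).iff (c.dE' 0 2)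
    have h4 : Dfn L (K0 : Set N) fun v => c.lt (v 0) (v 2) := c.dlt' 0 2
    exact ((h4.and (h2.imp h3).all).ex).all
  obtain ⟨B, hB, hB', -⟩ := c.exists_dc (S := fun B => ∀ s, ∃ s', c.lt s' B ∧
      ∀ i, c.lt i δ → (c.E i s' ↔ c.E i s)) hBd (c.bd δ)
  have hBK : B ∈ K0 := mem_of_dc hB'
  -- the code
  have hCd : Dfn L (Kc : Set N) fun v => ∀ i, c.lt i δ → (c.E i (v 0) ↔ S i) := by
    have h2 : Dfn L (Kc : Set N) fun v => c.lt (v 0) δ :=
      Dfn.subst (R := fun v => c.lt (v 1) (v 0)) (c.dlt' 1 0) (dc_of_mem (h0c δ hδ))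
    have h3 : Dfn L (Kc : Set N) fun v => c.E (v 0) (v 1) ↔ S (v 0) := (c.dE' 0 1).iff hS
    exact (h2.imp h3).all
  obtain ⟨s0, hs0⟩ := c.code S (hS.mono (Set.subset_univ _)) δ
  obtain ⟨s1, hs1, hs1'⟩ := hB s0
  obtain ⟨s, hs, hsc, hsmin⟩ := c.exists_dc (S := fun s => ∀ i, c.lt i δ → (c.E i s ↔ S i)) hCd
    ⟨s0, hs0⟩
  have hsB : c.lt s B := by
    have h2 : ¬ c.lt s1 s := fun h2 => hsmin s1 h2 fun i hi => (hs1' i hi).trans (hs0 i hi)
    rcases c.tri s s1 with h3 | h3 | h3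
    · exact c.trans _ _ _ h3 hs1
    · rw [h3]
      exact hs1
    · exact absurd h3 h2
  have hsKc : s ∈ Kc := mem_of_dc hsc
  have hsKb : s ∈ Kb := by
    by_contra h2
    exact c.irrefl _ (c.trans _ _ _ hsB (hend B (hab B (h0a B hBK)) s h2))
  have hsK0 : s ∈ K0 := hbc s hsKb hsKc
  -- the definition of `β`
  have hfin : Dc L (insert α (K0 : Set N)) β := by
    have h2 : Dfn L (insert α (K0 : Set N)) fun v => v 0 = c.pr (v 4) (v 3) ∧ c.lt (v 0) (v 2) ∧
        c.E (v 0) (v 1) := (c.dpr' 0 4 3).and ((c.dlt' 0 2).and (c.dE' 0 1))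
    have h3 := ((h2.ex.subst (dc_of_mem (Set.mem_insert_of_mem α hsK0))).subst
      (dc_of_mem (Set.mem_insert_of_mem α hδ))).subst (dc_of_mem (Set.mem_insert α (K0 : Set N)))
    refine h3.congr fun v => ?_
    constructor
    · rintro ⟨z, hz1, hz2, hz3⟩
      have e1 : z = c.pr (v 0) α := hz1
      have e2 : c.lt z δ := hz2
      have e3 : c.E z s := hz3
      rw [e1] at e2 e3
      exact (hSα (v 0)).1 ((hs _ e2).1 e3)
    · intro hv
      refine ⟨c.pr β α, ?_, hδ', (hs _ hδ').2 ((hSα β).2 rfl)⟩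
      show c.pr β α = c.pr (v 0) α
      rw [hv]
  refine mem_of_dc' hfin ?_
  intro x hx
  rcases hx with rfl | hx
  · exact hα
  · exact h0a x hx

end Cod

end

end Pool.Agent.TH752.AR
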