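import Mathlib

/-!
Definable relations of a structure in an arbitrary language, given as predicates on sequences;
definable closure; transfer.
-/

set_option autoImplicit false

open FirstOrder FirstOrder.Language

universe u w

namespace Pool.Agent.TH752.AR

/-- `x` followed by the sequence `v` -/
def scons {N : Type u} (x : N) (v : ℕ → N) : ℕ → N
  | 0 => x
  | n + 1 => v n

@[simp] theorem scons_zero {N : Type u} (x : N) (v : ℕ → N) : scons x v 0 = x := rfl
@[simp] theorem scons_succ {N : Type u} (x : N) (v : ℕ → N) (n : ℕ) : scons x v (n + 1) = v n := rfl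
@[simp] theorem scons_one {N : Type u} (x : N) (v : ℕ → N) : scons x v 1 = v 0 := rfl

/-- the variable map used for the quantifiers -/
def exMap : ℕ → ℕ ⊕ Unit
  | 0 => Sum.inr ()
  | n + 1 => Sum.inl n

theorem elim_exMap {N : Type u} (v : ℕ → N) (i : Unit → N) :
    (Sum.elim v i) ∘ exMap = scons (i ()) v := by
  funext n
  cases n <;> rfl

section gen
variable {L : FirstOrder.Language.{0, 0}} {N : Type u} [L.Structure N]

/-- existential quantification over the variable `0` -/
noncomputable def exL {L : FirstOrder.Language.{w, 0}} (φ : L.Formula ℕ) : L.Formula ℕ :=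
  Formula.iExs Unit (φ.relabel exMap)

theorem realize_exL {L : FirstOrder.Language.{w, 0}} [L.Structure N] (φ : L.Formula ℕ)
    (v : ℕ → N) : (exL φ).Realize v ↔ ∃ x, φ.Realize (scons x v) := by
  unfold exL
  rw [Formula.realize_iExs]
  simp only [Formula.realize_relabel, elim_exMap]
  exact ⟨fun ⟨i, h⟩ => ⟨_, h⟩, fun ⟨x, h⟩ => ⟨fun _ => x, h⟩⟩

/-- Transfer: a formula which holds in `M` for all values of its variables holds in each structure
elementarily equivalent to `M`, for all values. -/
theorem transfer {M : Type w} {N : Type u} [L.Structure M] [L.Structure N] [Nonempty M]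
    (h : M ≅[L] N) {α : Type*} (φ : L.Formula α) (hφ : ∀ v : α → M, φ.Realize v) :
    ∀ v : α → N, φ.Realize v := by
  classical
  intro v
  by_contra hv
  have h1 : N ⊨ (Formula.not φ).exClosure := by
    rw [Formula.realize_exClosure]
    refine ⟨fun a => v a, ?_⟩
    have := (BoundedFormula.realize_restrictFreeVar (φ := Formula.not φ) (f := id)
      (v := fun a => v a) (v' := v) (xs := default) (by simp))
    have h2 : (Formula.not φ).Realize v := hv
    exact this.2 h2
  have h3 : M ⊨ (Formula.not φ).exClosure := (h.realize_sentence _).2 h1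
  rw [Formula.realize_exClosure] at h3
  obtain ⟨w, hw⟩ := h3
  let v0 : α → M := fun a => if ha : a ∈ (Formula.not φ).freeVarFinset then w ⟨a, ha⟩ else
    Classical.arbitrary M
  have := (BoundedFormula.realize_restrictFreeVar (φ := Formula.not φ) (f := id)
      (v := w) (v' := v0) (xs := default) (by
        intro a
        have ha := a.2
        simp only [id, v0]
        rw [dif_pos ha]))
  have h4 : (Formula.not φ).Realize v0 := this.1 hw
  exact h4 (hφ v0)

end gen

section
variable {L : FirstOrder.Language.{0, 0}} {N : Type u} [L.Structure N]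

/-- `R` is definable with parameters from `A` -/
def Dfn (L : FirstOrder.Language.{0, 0}) [L.Structure N] (A : Set N) (R : (ℕ → N) → Prop) : Prop :=
  A.Definable L {v : ℕ → N | R v}

theorem Dfn.mono {A B : Set N} {R : (ℕ → N) → Prop} (h : Dfn L A R) (hAB : A ⊆ B) : Dfn L B R :=
  Set.Definable.mono h hAB

theorem Dfn.congr {A : Set N} {R R' : (ℕ → N) → Prop} (h : Dfn L A R) (hR : ∀ v, R v ↔ R' v) :
    Dfn L A R' := by
  have : R = R' := funext fun v => propext (hR v)
  rwa [this] at h

theorem Dfn.and {A : Set N} {R S : (ℕ → N) → Prop} (h : Dfn L A R) (h' : Dfn L A S) :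
    Dfn L A fun v => R v ∧ S v := Set.Definable.inter h h'

theorem Dfn.or {A : Set N} {R S : (ℕ → N) → Prop} (h : Dfn L A R) (h' : Dfn L A S) :
    Dfn L A fun v => R v ∨ S v := Set.Definable.union h h'

theorem Dfn.not {A : Set N} {R : (ℕ → N) → Prop} (h : Dfn L A R) :
    Dfn L A fun v => ¬ R v := Set.Definable.compl h

theorem Dfn.imp {A : Set N} {R S : (ℕ → N) → Prop} (h : Dfn L A R) (h' : Dfn L A S) :
    Dfn L A fun v => R v → S v := by
  refine (h.not.or h').congr fun v => ?_
  tauto

theorem Dfn.iff {A : Set N} {R S : (ℕ → N) → Prop} (h : Dfn L A R) (h' : Dfn L A S) :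
    Dfn L A fun v => (R v ↔ S v) := by
  refine ((h.imp h').and (h'.imp h)).congr fun v => ?_
  tauto

theorem Dfn.ex {A : Set N} {R : (ℕ → N) → Prop} (h : Dfn L A R) :
    Dfn L A fun v => ∃ x, R (scons x v) := by
  obtain ⟨φ, hφ⟩ := h
  refine ⟨exL φ, ?_⟩
  ext v
  have h1 : ∀ v, R v ↔ φ.Realize v := fun v => Set.ext_iff.1 hφ v
  show (∃ x, R (scons x v)) ↔ (exL φ).Realize v
  rw [realize_exL]
  simp only [h1]

theorem Dfn.all {A : Set N} {R : (ℕ → N) → Prop} (h : Dfn L A R) :
    Dfn L A fun v => ∀ x, R (scons x v) := by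
  refine h.not.ex.not.congr fun v => ?_
  push Not
  rfl

theorem Dfn.ren {A : Set N} {R : (ℕ → N) → Prop} (h : Dfn L A R) (g : ℕ → ℕ) :
    Dfn L A fun v => R (v ∘ g) := Set.Definable.preimage_comp g h

theorem Dfn.fm {A : Set N} (φ : L.Formula ℕ) : Dfn L A fun v => φ.Realize v := by
  refine Set.Definable.mono (Set.empty_definable_iff.2 ⟨φ, rfl⟩) (Set.empty_subset A)

theorem Dfn.eq {A : Set N} (i j : ℕ) : Dfn L A fun v => v i = v j := by
  refine (Dfn.fm (Term.equal (Term.var i) (Term.var j))).congr fun v => ?_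
  rw [Formula.realize_equal, Term.realize_var, Term.realize_var]

theorem Dfn.const {A : Set N} {a : N} (ha : a ∈ A) (i : ℕ) : Dfn L A fun v => v i = a := by
  refine ⟨(Term.var i).equal (L.con (⟨a, ha⟩ : A)).term, ?_⟩
  ext v
  simp

theorem Dfn.bool {A : Set N} (p : Prop) : Dfn L A (fun _ : ℕ → N => p) := by
  by_cases hp : p
  · exact ((Dfn.eq 0 0).congr fun v => by simp [hp])
  · exact ((Dfn.eq 0 0).not.congr fun v => by simp [hp])

theorem Dfn.mono0 {A : Set N} {R : (ℕ → N) → Prop} (h : Dfn L (∅ : Set N) R) : Dfn L A R :=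
  h.mono (Set.empty_subset A)

/-- definability in terms of formulas and parameters -/
theorem dfn_iff {A : Set N} {R : (ℕ → N) → Prop} :
    Dfn L A R ↔ ∃ φ : L.Formula (A ⊕ ℕ), ∀ v, φ.Realize (Sum.elim (↑) v) ↔ R v := by
  unfold Dfn
  rw [Set.definable_iff_exists_formula_sum]
  constructor
  · rintro ⟨φ, hφ⟩
    exact ⟨φ, fun v => (Set.ext_iff.1 hφ v).symm⟩
  · rintro ⟨φ, hφ⟩
    exact ⟨φ, Set.ext fun v => (hφ v).symm⟩

/-- definable relations are defined over finite sets -/
theorem Dfn.finite {A : Set N} {R : (ℕ → N) → Prop} (h : Dfn L A R) :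
    ∃ A0 : Finset N, (A0 : Set N) ⊆ A ∧ Dfn L (A0 : Set N) R :=
  Set.definable_iff_finitely_definable.1 h

theorem dfn_one {A : Set N} {S : Set N} : A.Definable₁ L S ↔ Dfn L A fun v => v 0 ∈ S := by
  constructor
  · intro h
    exact Set.Definable.preimage_comp (fun _ : Fin 1 => (0 : ℕ)) h
  · intro h
    exact Set.Definable.preimage_comp (fun _ : ℕ => (0 : Fin 1)) h

/-- `x` is definable from parameters in `A` -/
def Dc (L : FirstOrder.Language.{0, 0}) [L.Structure N] (A : Set N) (x : N) : Prop :=
  Dfn L A fun v => v 0 = x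

theorem Dc.mono {A B : Set N} {x : N} (h : Dc L A x) (hAB : A ⊆ B) : Dc L B x := Dfn.mono h hAB

theorem dc_of_mem {A : Set N} {x : N} (h : x ∈ A) : Dc L A x := Dfn.const h 0

theorem Dc.finite {A : Set N} {x : N} (h : Dc L A x) :
    ∃ A0 : Finset N, (A0 : Set N) ⊆ A ∧ Dc L (A0 : Set N) x := Dfn.finite h

/-- substitution of a definable element for a variable -/
theorem Dfn.subst {A : Set N} {R : (ℕ → N) → Prop} {x : N} (h : Dfn L A R) (hx : Dc L A x) :
    Dfn L A fun v => R (scons x v) := by
  have h1 : Dfn L A fun v => v 0 = x ∧ R v := Dfn.and hx h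
  refine h1.ex.congr fun v => ?_
  constructor
  · rintro ⟨y, hy, h2⟩
    have : y = x := hy
    subst this
    exact h2
  · intro h2
    exact ⟨x, rfl, h2⟩

/-- a relation definable over `A ∪ {a}` comes from a relation definable over `A` -/
theorem Dfn.of_insert {A : Set N} {a : N} {R : (ℕ → N) → Prop} (h : Dfn L (insert a A) R) :
    ∃ T : (ℕ → N) → Prop, Dfn L A T ∧ ∀ v, R v ↔ T (scons a v) := by
  classical
  obtain ⟨φ, hφ⟩ := dfn_iff.1 h
  let g : (↥(insert a A)) ⊕ ℕ → A ⊕ ℕ := fun z => match z with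
    | Sum.inl b => if hb : (b : N) ∈ A then Sum.inl ⟨b, hb⟩ else Sum.inr 0
    | Sum.inr n => Sum.inr (n + 1)
  refine ⟨fun v => (φ.relabel g).Realize (Sum.elim (↑) v), dfn_iff.2 ⟨φ.relabel g, fun v => Iff.rfl⟩,
    fun v => ?_⟩
  show R v ↔ (φ.relabel g).Realize (Sum.elim (↑) (scons a v))
  rw [Formula.realize_relabel, ← hφ v]
  have : (Sum.elim (↑) v : (↥(insert a A)) ⊕ ℕ → N) = (Sum.elim (↑) (scons a v)) ∘ g := by
    funext z
    rcases z with b | n
    · simp only [Sum.elim_inl, Function.comp_apply, g]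
      split_ifs with hb
      · rfl
      · rcases b.2 with h1 | h1
        · simpa using h1
        · exact absurd h1 hb
    · rfl
  rw [this]

/-- transitivity of definability -/
theorem Dfn.trans {A B : Set N} {R : (ℕ → N) → Prop} (h : Dfn L B R) (hB : ∀ b ∈ B, Dc L A b) :
    Dfn L A R := by
  classical
  obtain ⟨B0, hB0, h1⟩ := h.finite
  have key : ∀ (F : Finset N), (∀ b ∈ F, Dc L A b) → ∀ R : (ℕ → N) → Prop, Dfn L (A ∪ F) R → Dfn L A R := by
    intro F
    induction F using Finset.induction_on with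
    | empty =>
      intro _ R hR
      simpa using hR
    | insert a F ha ih =>
      intro hF R hR
      rw [Finset.coe_insert, Set.union_insert] at hR
      obtain ⟨T, hT, hRT⟩ := hR.of_insert
      have hT' := ih (fun b hb => hF b (Finset.mem_insert_of_mem hb)) T hT
      exact (hT'.subst (hF a (Finset.mem_insert_self a F))).congr fun v => (hRT v).symm
  exact key B0 (fun b hb => hB b (hB0 hb)) R (h1.mono Set.subset_union_right)

theorem Dc.trans {A B : Set N} {x : N} (h : Dc L B x) (hB : ∀ b ∈ B, Dc L A b) : Dc L A x :=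
  Dfn.trans h hB

end


end Pool.Agent.TH752.AR
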